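import Pool.Agent.Helper90_MT100G.Loc

/-! TU2 and TU3: simultaneous continuation of the translates along a chain of discs. -/

set_option autoImplicit false

namespace Pool.Agent.MT100G.H90

open Matrix Pool.Agent.MT100 Metric

variable {d : Type} [Fintype d] [DecidableEq d]

theorem mem_tr {a s w : ℂ} {ρ : ℝ} : w ∈ ball (a + s) ρ ↔ w - s ∈ ball a ρ := by
  rw [mem_ball, mem_ball, dist_eq_norm, dist_eq_norm]
  have : w - (a + s) = w - s - a := by ring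
  rw [this]

/-- the translated set -/
def sh (U : Set ℂ) (s : ℂ) : Set ℂ := {w | w - s ∈ U}

/-- lifting of a chain to a chain of tuples -/
theorem lift (hO : OdeStmt) (hU : UniStmt) {ι : Type} {q : Polynomial ℤ}
    {B : Matrix d d (Polynomial ℤ)} (κ : ι → ℕ) (i : ι) (U : Set ℂ)
    (hreg : ∀ w ∈ U, w + κ i ≠ 0 ∧ ∀ j, Reg q (w + κ i - κ j))
    {x y : ℂ × ℝ × (ℂ → Matrix d d ℂ)} (h : Cnt q B U x y)
    (Y0 : ι → ℂ → Matrix d d ℂ) (L0 : ℂ → ℂ) (hY0 : Y0 i = x.2.2)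
    (hX : SolT q B κ (x.1 + κ i, x.2.1, Y0, L0)) :
    ∃ (Y : ι → ℂ → Matrix d d ℂ) (L : ℂ → ℂ), Y i = y.2.2 ∧
      SolT q B κ (y.1 + κ i, y.2.1, Y, L) ∧
      CntT q B κ (x.1 + κ i, x.2.1, Y0, L0) (y.1 + κ i, y.2.1, Y, L) ∧
      ∀ j, Cnt q B (sh U ((κ i : ℂ) - κ j)) (x.1 + κ i - κ j, x.2.1, Y0 j)
        (y.1 + κ i - κ j, y.2.1, Y j) := by
  induction h with
  | refl => exact ⟨Y0, L0, hY0, hX, Relation.ReflTransGen.refl,
      fun j => Relation.ReflTransGen.refl⟩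
  | @tail b c hxb hbc ih =>
    obtain ⟨Y, L, hYi, hS, hC, hD⟩ := ih
    obtain ⟨hb, hc, hbU, hcU, hne, hag⟩ := hbc
    obtain ⟨w₀, hw₀b, hw₀c⟩ := hne
    have hSj : ∀ j, SolOn q B (b.1 + κ i - κ j) b.2.1 (Y j) := fun j => hS.2.1 j
    have hinter : ∀ j, (ball (b.1 + κ i - κ j) b.2.1 ∩ ball (c.1 + κ i - κ j) c.2.1).Nonempty := by
      intro j
      refine ⟨w₀ + (κ i - κ j), ?_, ?_⟩
      · rw [add_sub_assoc, mem_tr, add_sub_cancel_right]
        exact hw₀b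
      · rw [add_sub_assoc, mem_tr, add_sub_cancel_right]
        exact hw₀c
    have hcreg : ∀ j, ∀ w ∈ ball (c.1 + κ i - κ j) c.2.1, Reg q w := by
      intro j w hw
      rw [add_sub_assoc, mem_tr] at hw
      have h1 := (hreg _ (hcU hw)).2 j
      have h2 : w - ((κ i : ℂ) - κ j) + κ i - κ j = w := by ring
      rwa [h2] at h1
    have key : ∀ j, ∃ Y' : ℂ → Matrix d d ℂ, SolOn q B (c.1 + κ i - κ j) c.2.1 Y' ∧
        (∀ w ∈ ball (b.1 + κ i - κ j) b.2.1 ∩ ball (c.1 + κ i - κ j) c.2.1, Y j w = Y' w) ∧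
        (j = i → Y' = c.2.2) := by
      intro j
      by_cases hji : j = i
      · subst hji
        refine ⟨c.2.2, ?_, ?_, fun _ => rfl⟩
        · rw [add_sub_cancel_right]
          exact hc
        · rw [add_sub_cancel_right, add_sub_cancel_right, hYi]
          exact hag
      · obtain ⟨Y', h1, h2⟩ := exists_match hO hU (hSj j) hc.pos (hcreg j) (hinter j)
        exact ⟨Y', h1, h2, fun h => absurd h hji⟩
    choose Yc hYc1 hYc2 hYc3 using key
    -- the logarithm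
    have hc0 : ∀ w ∈ ball (c.1 + κ i) c.2.1, w ≠ 0 := by
      intro w hw
      rw [mem_tr] at hw
      have h1 := (hreg _ (hcU hw)).1
      rwa [sub_add_cancel] at h1
    obtain ⟨Lc, hLc1, hLc2⟩ := exists_log hc.pos hc0
    have hVne : (ball (b.1 + κ i) b.2.1 ∩ ball (c.1 + κ i) c.2.1).Nonempty := by
      refine ⟨w₀ + κ i, ?_, ?_⟩
      · rw [mem_tr, add_sub_cancel_right]
        exact hw₀b
      · rw [mem_tr, add_sub_cancel_right]
        exact hw₀c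
    have hLdiff : DifferentiableOn ℂ L (ball (b.1 + κ i) b.2.1) := hS.2.2.2
    have hLexp : ∀ w ∈ ball (b.1 + κ i) b.2.1, w ≠ 0 ∧ Complex.exp (L w) = w := hS.2.2.1
    obtain ⟨m, hm⟩ := log_diff (isOpen_ball.inter isOpen_ball)
      ((convex_ball (b.1 + (κ i : ℂ)) b.2.1).inter
        (convex_ball (c.1 + (κ i : ℂ)) c.2.1)).isPreconnected hVne
      (hLdiff.mono Set.inter_subset_left) (hLc1.mono Set.inter_subset_right)
      (fun w hw => (hLexp w hw.1).2) (fun w hw => hLc2 w hw.2)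
    have hST : SolT q B κ (c.1 + κ i, c.2.1, Yc, fun w => Lc w + 2 * Real.pi * Complex.I * m) := by
      refine ⟨hc.pos, hYc1, fun w hw => ⟨hc0 w hw, ?_⟩, ?_⟩
      · show Complex.exp (Lc w + 2 * Real.pi * Complex.I * m) = w
        have h1 : Complex.exp (2 * Real.pi * Complex.I * m) = 1 :=
          Complex.exp_eq_one_iff.2 ⟨m, by ring⟩
        rw [Complex.exp_add, hLc2 w hw, h1, mul_one]
      · exact hLc1.add (differentiableOn_const _)
    refine ⟨Yc, fun w => Lc w + 2 * Real.pi * Complex.I * m, hYc3 i rfl, hST,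
      hC.tail ⟨hS, hST, hVne, fun w hw => ⟨fun j => ?_, ?_⟩⟩, fun j => (hD j).tail ?_⟩
    · apply hYc2 j
      have h1 : ∀ a : ℂ × ℝ × (ℂ → Matrix d d ℂ), w ∈ ball (a.1 + κ i) a.2.1 →
          w - κ j ∈ ball (a.1 + κ i - κ j) a.2.1 := by
        intro a ha
        rw [mem_tr] at ha
        rw [add_sub_assoc, mem_tr]
        have h2 : w - κ j - ((κ i : ℂ) - κ j) = w - κ i := by ring
        rwa [h2]
      exact ⟨h1 b hw.1, h1 c hw.2⟩
    · exact hm w hw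
    · refine ⟨hSj j, hYc1 j, ?_, ?_, hinter j, hYc2 j⟩
      · intro w hw
        have hw' : w ∈ ball (b.1 + κ i - κ j) b.2.1 := hw
        rw [add_sub_assoc, mem_tr] at hw'
        exact hbU hw'
      · intro w hw
        have hw' : w ∈ ball (c.1 + κ i - κ j) c.2.1 := hw
        rw [add_sub_assoc, mem_tr] at hw'
        exact hcU hw'

/-! ### Connection along the real axis -/

theorem conn_aux {α : Type*} (r : α → α → Prop) (D : ℝ → α) (R₁ : ℝ)
    (h : ∀ c c', R₁ ≤ c → R₁ ≤ c' → |c - c'| ≤ 1 → r (D c) (D c')) (n : ℕ) :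
    ∀ c c', R₁ ≤ c → R₁ ≤ c' → |c - c'| ≤ n → Relation.ReflTransGen r (D c) (D c') := by
  induction n with
  | zero =>
    intro c c' _ _ hcc
    have h1 : c - c' = 0 := by
      rw [Nat.cast_zero] at hcc
      exact abs_nonpos_iff.1 hcc
    have h2 : c = c' := by linarith
    rw [h2]
  | succ n ih =>
    intro c c' hc hc' hcc
    push_cast at hcc
    have hn : (0 : ℝ) < (n : ℝ) + 1 := by positivity
    obtain ⟨s, hs⟩ : ∃ s : ℝ, s = ((n : ℝ) + 1)⁻¹ := ⟨_, rfl⟩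
    have hs0 : 0 < s := by rw [hs]; positivity
    have hs1 : s * ((n : ℝ) + 1) = 1 := by
      rw [hs]
      field_simp
    have hsle : s ≤ 1 := by nlinarith [(Nat.cast_nonneg n : (0 : ℝ) ≤ n)]
    obtain ⟨c'', hc''⟩ : ∃ c'' : ℝ, c'' = c + s * (c' - c) := ⟨_, rfl⟩
    have h1 : R₁ ≤ c'' := by
      rw [hc'']
      nlinarith
    have h2 : |c - c''| ≤ 1 := by
      have h3 : c - c'' = s * (c - c') := by rw [hc'']; ring
      rw [h3, abs_mul, abs_of_pos hs0]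
      calc s * |c - c'| ≤ s * ((n : ℝ) + 1) := mul_le_mul_of_nonneg_left hcc hs0.le
        _ = 1 := hs1
    have h3 : |c'' - c'| ≤ n := by
      have h4 : c'' - c' = (1 - s) * (c - c') := by rw [hc'']; ring
      rw [h4, abs_mul, abs_of_nonneg (by linarith)]
      calc (1 - s) * |c - c'| ≤ (1 - s) * ((n : ℝ) + 1) :=
            mul_le_mul_of_nonneg_left hcc (by linarith)
        _ = n := by linear_combination -hs1
    exact Relation.ReflTransGen.head (h c c'' hc h1 h2) (ih c'' c' h1 hc' h3)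

theorem conn {α : Type*} (r : α → α → Prop) (D : ℝ → α) (R₁ : ℝ)
    (h : ∀ c c', R₁ ≤ c → R₁ ≤ c' → |c - c'| ≤ 1 → r (D c) (D c')) :
    ∀ c c', R₁ ≤ c → R₁ ≤ c' → Relation.ReflTransGen r (D c) (D c') := by
  intro c c' hc hc'
  obtain ⟨n, hn⟩ := exists_nat_ge |c - c'|
  exact conn_aux r D R₁ h n c c' hc hc' hn

theorem inter_unit {c c' : ℝ} (h : |c - c'| ≤ 1) :
    (ball (c : ℂ) 1 ∩ ball (c' : ℂ) 1).Nonempty := by
  refine ⟨(((c + c') / 2 : ℝ) : ℂ), ?_, ?_⟩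
  · rw [mem_ball, dist_eq_norm, ← Complex.ofReal_sub, Complex.norm_real, Real.norm_eq_abs]
    have h1 : (c + c') / 2 - c = -((c - c') / 2) := by ring
    rw [h1, abs_neg, abs_div, abs_two]
    linarith
  · rw [mem_ball, dist_eq_norm, ← Complex.ofReal_sub, Complex.norm_real, Real.norm_eq_abs]
    have h1 : (c + c') / 2 - c' = (c - c') / 2 := by ring
    rw [h1, abs_div, abs_two]
    linarith

theorem re_of_mem_ball {a w : ℂ} {ρ : ℝ} (h : w ∈ ball a ρ) : a.re - ρ < w.re := by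
  rw [mem_ball, dist_eq_norm] at h
  have h1 := (Complex.abs_re_le_norm (w - a)).trans_lt h
  rw [Complex.sub_re, abs_lt] at h1
  linarith [h1.1]

/-- the base tuples -/
noncomputable def bT {ι : Type} (H : Matrix d d (PowerSeries ℚ)) (N : Matrix d d ℤ)
    (t : ι → Matrix d d ℂ) (k : ℤ) (ρ c : ℝ) :
    ℂ × ℝ × (ι → ℂ → Matrix d d ℂ) × (ℂ → ℂ) :=
  ((c : ℂ), ρ, (fun i w => YH H N w * t i), fun w => Complex.log w + 2 * Real.pi * Complex.I * k)

theorem bT_one {ι : Type} (H : Matrix d d (PowerSeries ℚ)) (N : Matrix d d ℤ) (ρ c : ℝ) :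
    bT (ι := ι) H N (fun _ => 1) 0 ρ c = ((c : ℂ), ρ, (fun _ => YH H N), Complex.log) := by
  unfold bT
  simp

theorem base_T {ι : Type} {H : Matrix d d (PowerSeries ℚ)} {N : Matrix d d ℤ}
    {q : Polynomial ℤ} {B : Matrix d d (Polynomial ℤ)} {R : ℝ} (hR0 : 0 < R)
    (hR : ∀ (c : ℂ) (ρ : ℝ), 0 < ρ → ball c ρ ⊆ {w | R < w.re} → SolOn q B c ρ (YH H N))
    (κ : ι → ℕ) (Km : ℕ) (hκ : ∀ j, κ j ≤ Km) (t : ι → Matrix d d ℂ)
    (ht : ∀ j, IsUnit (t j).det) (k : ℤ) {ρ c : ℝ} (hρ : 0 < ρ) (hρ1 : ρ ≤ 1)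
    (hc : R + Km + 1 ≤ c) : SolT q B κ (bT H N t k ρ c) := by
  have hre : ∀ w ∈ ball (c : ℂ) ρ, 0 < w.re := by
    intro w hw
    have h1 := re_of_mem_ball hw
    rw [Complex.ofReal_re] at h1
    have : (0 : ℝ) ≤ Km := Nat.cast_nonneg _
    linarith
  refine ⟨hρ, fun j => ?_, fun w hw => ?_, ?_⟩
  · refine SolOn.mul_const (hR _ _ hρ ?_) (ht j)
    intro w hw
    have h1 := re_of_mem_ball hw
    have h2 : ((c : ℂ) - κ j).re = c - κ j := by simp
    have h3 : (κ j : ℝ) ≤ Km := by exact_mod_cast hκ j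
    have h4 : ((bT H N t k ρ c).1 - (κ j : ℂ)).re = c - κ j := h2
    rw [h4] at h1
    show R < w.re
    linarith
  · have hw' : w ∈ ball (c : ℂ) ρ := hw
    have h0 : w ≠ 0 := by
      intro h
      have := hre w hw'
      rw [h] at this
      simp at this
    refine ⟨h0, ?_⟩
    show Complex.exp (Complex.log w + 2 * Real.pi * Complex.I * k) = w
    have h1 : Complex.exp (2 * Real.pi * Complex.I * k) = 1 :=
      Complex.exp_eq_one_iff.2 ⟨k, by ring⟩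
    rw [Complex.exp_add, Complex.exp_log h0, h1, mul_one]
  · intro w hw
    have hw' : w ∈ ball (c : ℂ) ρ := hw
    apply DifferentiableAt.differentiableWithinAt
    exact (Complex.differentiableAt_log
      (Complex.mem_slitPlane_iff.2 (Or.inl (hre w hw')))).add (differentiableAt_const _)

theorem tup_of_one {ι : Type} {H : Matrix d d (PowerSeries ℚ)} {N : Matrix d d ℤ}
    {q : Polynomial ℤ} {B : Matrix d d (Polynomial ℤ)} {R : ℝ} (hR0 : 0 < R)
    (hR : ∀ (c : ℂ) (ρ : ℝ), 0 < ρ → ball c ρ ⊆ {w | R < w.re} → SolOn q B c ρ (YH H N))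
    (κ : ι → ℕ) (Km : ℕ) (hκ : ∀ j, κ j ≤ Km) (t : ι → Matrix d d ℂ)
    (ht : ∀ j, IsUnit (t j).det) (k : ℤ) {c : ℝ} (hc : R + Km + 1 ≤ c)
    (h : CntT q B κ (bT H N (fun _ => 1) 0 1 c) (bT H N t k 1 c)) :
    (t, k) ∈ tup H N q B κ := by
  have hcon : ∀ (t : ι → Matrix d d ℂ) (k : ℤ), (∀ j, IsUnit (t j).det) →
      ∀ c c', R + Km + 1 ≤ c → R + Km + 1 ≤ c' →
        CntT q B κ (bT H N t k 1 c) (bT H N t k 1 c') := by
    intro t k ht
    refine conn (StpT q B κ) (fun c => bT H N t k 1 c) (R + Km + 1) ?_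
    intro c c' hc hc' hcc
    exact ⟨base_T hR0 hR κ Km hκ t ht k one_pos le_rfl hc,
      base_T hR0 hR κ Km hκ t ht k one_pos le_rfl hc', inter_unit hcc,
      fun w _ => ⟨fun j => rfl, rfl⟩⟩
  show ∀ᶠ c : ℝ in Filter.atTop, _
  filter_upwards [Filter.eventually_ge_atTop (R + Km + 1)] with c' hc'
  rw [← bT_one]
  have h1 := hcon (fun _ => 1) 0 (fun _ => by rw [Matrix.det_one]; exact isUnit_one) c' c hc' hc
  exact (h1.trans h).trans (hcon t k ht c c' hc hc')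

theorem mon_of_one {H : Matrix d d (PowerSeries ℚ)} {N : Matrix d d ℤ}
    {q : Polynomial ℤ} {B : Matrix d d (Polynomial ℤ)} {R : ℝ}
    (hR : ∀ (c : ℂ) (ρ : ℝ), 0 < ρ → ball c ρ ⊆ {w | R < w.re} → SolOn q B c ρ (YH H N))
    (U : Set ℂ) (c₀ : ℝ) (h0 : ∀ c, c₀ ≤ c → ball (c : ℂ) 1 ⊆ {w | R < w.re} ∧ ball (c : ℂ) 1 ⊆ U)
    {g : Matrix d d ℂ} (hg : IsUnit g.det) {c : ℝ} (hc : c₀ ≤ c)
    (h : Cnt q B U ((c : ℂ), 1, YH H N) ((c : ℂ), 1, fun w => YH H N w * g)) :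
    g ∈ mon H N q B U := by
  have hcon : ∀ (g : Matrix d d ℂ), IsUnit g.det → ∀ c c', c₀ ≤ c → c₀ ≤ c' →
      Cnt q B U ((c : ℂ), 1, fun w => YH H N w * g) ((c' : ℂ), 1, fun w => YH H N w * g) := by
    intro g hg
    refine conn (Stp q B U) (fun c : ℝ => ((c : ℂ), (1 : ℝ), fun w => YH H N w * g)) c₀ ?_
    intro c c' hc hc' hcc
    exact ⟨SolOn.mul_const (hR _ _ one_pos (h0 c hc).1) hg,
      SolOn.mul_const (hR _ _ one_pos (h0 c' hc').1) hg, (h0 c hc).2, (h0 c' hc').2,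
      inter_unit hcc, fun w _ => rfl⟩
  show ∀ᶠ c : ℝ in Filter.atTop, _
  filter_upwards [Filter.eventually_ge_atTop c₀] with c' hc'
  have h1 := hcon 1 (by rw [Matrix.det_one]; exact isUnit_one) c' c hc' hc
  have h2 : (fun w => YH H N w * (1 : Matrix d d ℂ)) = YH H N := by
    funext w
    rw [Matrix.mul_one]
  rw [h2] at h1
  exact (h1.trans h).trans (hcon g hg c c' hc hc')

/-! ### The bad points -/

theorem finite_bad {q : Polynomial ℤ} (hq : q ≠ 0) : {w : ℂ | ¬ Reg q w}.Finite := by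
  have h1 : ({w : ℂ | zC q w = 0}).Finite := by
    have h2 : q.map (Int.castRingHom ℂ) ≠ 0 :=
      (Polynomial.map_ne_zero_iff (RingHom.injective_int _)).2 hq
    exact Polynomial.finite_setOfPred_isRoot h2
  have h2 : {w : ℂ | ¬ Reg q w} ⊆ {0} ∪ (fun w => w⁻¹) '' {w : ℂ | zC q w = 0} := by
    intro w hw
    by_cases h : w = 0
    · left
      exact h
    · right
      refine ⟨w⁻¹, ?_, inv_inv w⟩
      by_contra hcon
      exact hw ⟨h, hcon⟩
  exact ((Set.finite_singleton 0).union (h1.image _)).subset h2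

theorem eventually_notMem {Z : Set ℂ} (hZ : Z.Finite) :
    ∀ᶠ c : ℝ in Filter.atTop, (c : ℂ) ∉ Z := by
  have h1 : ((fun c : ℝ => (c : ℂ)) ⁻¹' Z).Finite :=
    hZ.preimage (Complex.ofReal_injective.injOn)
  obtain ⟨b, hb⟩ := h1.bddAbove
  filter_upwards [Filter.eventually_gt_atTop b] with c hc hcZ
  exact absurd (hb hcZ) (not_le.2 hc)

/-- TU2 and TU3 -/
theorem key (hO : OdeStmt) (hU : UniStmt) (hB : BasStmt) (hP : PerStmt) (F : Fam d)
    {ι : Type} [Fintype ι] (κ : ι → ℕ) (i : ι) (U : Set ℂ) (hUo : IsOpen U) (m' : ℝ)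
    (hm' : {w : ℂ | m' < w.re} ⊆ U) (g : Matrix d d ℂ) (hg : g ∈ mon F.H F.N F.q F.B U) :
    ∃ t ∈ tup F.H F.N F.q F.B κ, t.1 i = g ∧ ∀ (j : ι) (m : ℝ),
      (∀ w ∈ U, m < (w + ((κ i : ℂ) - κ j)).re) → t.1 j ∈ mon F.H F.N F.q F.B {w | m < w.re} := by
  obtain ⟨R, hR0, hR, -⟩ := hB d F.H F.K F.N F.q F.B F.sys
  obtain ⟨Km, hKm⟩ : ∃ Km : ℕ, ∀ j, κ j ≤ Km := ⟨∑ j, κ j, fun j =>
    Finset.single_le_sum (f := κ) (fun _ _ => Nat.zero_le _) (Finset.mem_univ j)⟩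
  -- the bad set
  obtain ⟨Z, hZ⟩ : ∃ Z : Set ℂ, Z = {w : ℂ | w + κ i = 0} ∪
      ⋃ j : ι, {w : ℂ | ¬ Reg F.q (w + κ i - κ j)} := ⟨_, rfl⟩
  have hZf : Z.Finite := by
    rw [hZ]
    refine Set.Finite.union ?_ (Set.finite_iUnion fun j => ?_)
    · refine (Set.finite_singleton (-(κ i : ℂ))).subset ?_
      intro w hw
      exact eq_neg_of_add_eq_zero_left hw
    · have h1 : {w : ℂ | ¬ Reg F.q (w + κ i - κ j)} =
          (fun w : ℂ => w + κ i - κ j) ⁻¹' {w : ℂ | ¬ Reg F.q w} := rfl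
      rw [h1]
      refine (finite_bad F.sys.q0).preimage ?_
      intro a _ b _ hab
      have h2 : a + κ i - κ j = b + κ i - κ j := hab
      linear_combination h2
  have hZreg : ∀ w ∈ U \ Z, w + κ i ≠ 0 ∧ ∀ j, Reg F.q (w + κ i - κ j) := by
    intro w hw
    rw [hZ] at hw
    refine ⟨fun h => hw.2 (Or.inl h), fun j => ?_⟩
    by_contra h
    exact hw.2 (Or.inr (Set.mem_iUnion.2 ⟨j, h⟩))
  -- a large centre
  have hg' : ∀ᶠ c : ℝ in Filter.atTop, Cnt F.q F.B U ((c : ℂ), 1, YH F.H F.N)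
    ((c : ℂ), 1, fun w => YH F.H F.N w * g) := hg
  obtain ⟨c, ⟨hc1, hc2⟩, hc3, hc4⟩ := ((hg'.and (eventually_notMem hZf)).and
    ((Filter.eventually_ge_atTop (R + Km + 1)).and
      (Filter.eventually_ge_atTop (m' + 1)))).exists
  have hballU : ∀ c' : ℝ, m' + 1 ≤ c' → ball (c' : ℂ) 1 ⊆ U := by
    intro c' hc' w hw
    apply hm'
    have h1 := re_of_mem_ball hw
    rw [Complex.ofReal_re] at h1
    show m' < w.re
    linarith
  have hballR : ∀ (c' : ℝ) (ρ : ℝ), ρ ≤ 1 → R + 1 ≤ c' → ball (c' : ℂ) ρ ⊆ {w | R < w.re} := by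
    intro c' ρ hρ hc' w hw
    have h1 := re_of_mem_ball hw
    rw [Complex.ofReal_re] at h1
    show R < w.re
    linarith
  have hKm0 : (0 : ℝ) ≤ Km := Nat.cast_nonneg _
  have hκi : (0 : ℝ) ≤ κ i := Nat.cast_nonneg _
  obtain ⟨ε0, hε0, hper⟩ := hP d F.q F.B U hUo ((c : ℂ), 1, YH F.H F.N)
    ((c : ℂ), 1, fun w => YH F.H F.N w * g) hc1
    (hR _ _ one_pos (hballR c 1 le_rfl (by linarith))) (hballU c hc4) Z hZf
    (c : ℂ) (mem_ball_self one_pos) hc2 (c : ℂ) (mem_ball_self one_pos) hc2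
  obtain ⟨ε, hε, hεε0, hε1⟩ : ∃ ε : ℝ, 0 < ε ∧ ε ≤ ε0 ∧ ε ≤ 1 :=
    ⟨min ε0 1, lt_min hε0 one_pos, min_le_left _ _, min_le_right _ _⟩
  have hchain := hper ε ε hε hεε0 hε hεε0
  obtain ⟨C, hC⟩ : ∃ C : ℝ, C = c + κ i := ⟨_, rfl⟩
  have hCc : (C : ℂ) = (c : ℂ) + κ i := by
    rw [hC]
    push_cast
    ring
  have hCR : R + Km + 1 ≤ C := by
    rw [hC]
    linarith
  have hb1 : SolT F.q F.B κ ((C : ℂ), ε, (fun _ => YH F.H F.N), Complex.log) := by
    rw [← bT_one]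
    exact base_T hR0 hR κ Km hKm _ (fun _ => by rw [Matrix.det_one]; exact isUnit_one) 0 hε hε1
      hCR
  rw [hCc] at hb1
  obtain ⟨Y, L, hYi, hS, hT, hcomp⟩ := lift hO hU κ i (U \ Z) hZreg hchain
    (fun _ => YH F.H F.N) Complex.log rfl hb1
  simp only at hYi hS hT hcomp
  have hcj : ∀ j : ι, (((C - κ j : ℝ) : ℝ) : ℂ) = (c : ℂ) + κ i - κ j := by
    intro j
    rw [Complex.ofReal_sub, hCc]
    push_cast
    ring
  have hCj : ∀ j : ι, R + 1 ≤ C - κ j := by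
    intro j
    have h1 : (κ j : ℝ) ≤ Km := by exact_mod_cast hKm j
    linarith
  have hYHj : ∀ j : ι, SolOn F.q F.B ((c : ℂ) + κ i - κ j) ε (YH F.H F.N) := by
    intro j
    rw [← hcj]
    exact hR _ _ hε (hballR _ _ hε1 (hCj j))
  have ht : ∀ j : ι, ∃ tj : Matrix d d ℂ, IsUnit tj.det ∧
      ∀ w ∈ ball ((c : ℂ) + κ i - κ j) ε, Y j w = YH F.H F.N w * tj := by
    intro j
    exact uni_sol hU (hYHj j) (hS.2.1 j) (ball ((c : ℂ) + κ i - κ j) ε) isOpen_ball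
      (convex_ball _ _) le_rfl le_rfl ⟨_, mem_ball_self hε⟩
  choose t htu ht using ht
  have hti : t i = g := by
    have hmem : (c : ℂ) + κ i - κ i ∈ ball ((c : ℂ) + κ i - κ i) ε := mem_ball_self hε
    have h1 := ht i _ hmem
    rw [hYi] at h1
    have h2 := (hYHj i).det _ hmem
    have h3 := congrArg (fun M => (YH F.H F.N ((c : ℂ) + κ i - κ i))⁻¹ * M) h1
    simp only at h3
    rw [← Matrix.mul_assoc, ← Matrix.mul_assoc, Matrix.nonsing_inv_mul _ h2, Matrix.one_mul,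
      Matrix.one_mul] at h3
    exact h3.symm
  -- the logarithm
  obtain ⟨k, hk⟩ := log_diff (V := ball ((c : ℂ) + κ i) ε) isOpen_ball
    (convex_ball _ _).isPreconnected ⟨_, mem_ball_self hε⟩ (L := L) (L' := Complex.log)
    hS.2.2.2 hb1.2.2.2 (fun w hw => (hS.2.2.1 w hw).2) (fun w hw => (hb1.2.2.1 w hw).2)
  have hsub : ball ((C : ℂ)) ε ⊆ ball ((C : ℂ)) 1 := ball_subset_ball hε1
  have hone : ∀ _j : ι, IsUnit ((1 : Matrix d d ℂ)).det := fun _ => by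
    rw [Matrix.det_one]
    exact isUnit_one
  have hB1 := base_T hR0 hR κ Km hKm (fun _ => 1) hone 0 one_pos le_rfl hCR
  have hBt := base_T hR0 hR κ Km hKm t htu k one_pos le_rfl hCR
  have hfinal : CntT F.q F.B κ (bT F.H F.N (fun _ => 1) 0 1 C) (bT F.H F.N t k 1 C) := by
    have e1 : StpT F.q F.B κ (bT F.H F.N (fun _ => 1) 0 1 C)
        ((c : ℂ) + κ i, ε, (fun _ => YH F.H F.N), Complex.log) := by
      refine ⟨hB1, hb1, ⟨(C : ℂ), mem_ball_self one_pos, ?_⟩, fun w _ => ?_⟩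
      · rw [← hCc]
        exact mem_ball_self hε
      · rw [bT_one]
        exact ⟨fun j => rfl, rfl⟩
    have e2 : StpT F.q F.B κ ((c : ℂ) + κ i, ε, Y, L) (bT F.H F.N t k 1 C) := by
      refine ⟨hS, hBt, ⟨(C : ℂ), ?_, mem_ball_self one_pos⟩, fun w hw => ⟨fun j => ?_, ?_⟩⟩
      · rw [← hCc]
        exact mem_ball_self hε
      · apply ht j
        have h1 : w ∈ ball ((c : ℂ) + κ i) ε := hw.1
        rw [sub_eq_add_neg ((c : ℂ) + κ i), mem_tr, sub_neg_eq_add, sub_add_cancel]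
        exact h1
      · exact hk w hw.1
    exact (Relation.ReflTransGen.head e1 hT).tail e2
  refine ⟨(t, k), tup_of_one hR0 hR κ Km hKm t htu k hCR hfinal, hti, fun j m hjm => ?_⟩
  -- the components
  have hmm : m ≤ m' + (κ i - κ j) := by
    apply le_of_forall_pos_lt_add
    intro δ hδ
    have h1 := hjm ((m' + δ : ℝ) : ℂ) (hm' (by
      show m' < (((m' + δ : ℝ) : ℂ)).re
      rw [Complex.ofReal_re]
      linarith))
    have h2 : (((m' + δ : ℝ) : ℂ) + ((κ i : ℂ) - κ j)).re = m' + δ + (κ i - κ j) := by simp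
    rw [h2] at h1
    linarith
  have hCm : m + 1 ≤ C - κ j := by
    rw [hC]
    linarith
  have hbm : ∀ c' : ℝ, m + 1 ≤ c' → ball (c' : ℂ) 1 ⊆ {w | m < w.re} := by
    intro c' hc' w hw
    have h1 := re_of_mem_ball hw
    rw [Complex.ofReal_re] at h1
    show m < w.re
    linarith
  refine mon_of_one hR {w | m < w.re} (max (R + 1) (m + 1))
    (fun c' hc' => ⟨hballR c' 1 le_rfl ((le_max_left _ _).trans hc'),
      hbm c' ((le_max_right _ _).trans hc')⟩) (htu j) (c := C - κ j)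
    (max_le (hCj j) hCm) ?_
  have hmono : ∀ x y, Cnt F.q F.B (sh (U \ Z) ((κ i : ℂ) - κ j)) x y →
      Cnt F.q F.B {w | m < w.re} x y := by
    intro x y hxy
    refine Relation.ReflTransGen.mono ?_ _ _ hxy
    intro a b hab
    have hs : sh (U \ Z) ((κ i : ℂ) - κ j) ⊆ {w | m < w.re} := by
      intro w hw
      have h1 := hjm _ hw.1
      rw [sub_add_cancel] at h1
      exact h1
    exact ⟨hab.1, hab.2.1, hab.2.2.1.trans hs, hab.2.2.2.1.trans hs, hab.2.2.2.2⟩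
  have hmid := hmono _ _ (hcomp j)
  have hsol1 : SolOn F.q F.B (((C - κ j : ℝ) : ℝ) : ℂ) 1 (YH F.H F.N) :=
    hR _ _ one_pos (hballR _ _ le_rfl (hCj j))
  have hball1 : ball ((((C - κ j : ℝ) : ℝ) : ℂ)) ε ⊆ {w | m < w.re} :=
    (ball_subset_ball hε1).trans (hbm _ hCm)
  have e1 : Stp F.q F.B {w | m < w.re} ((((C - κ j : ℝ) : ℝ) : ℂ), 1, YH F.H F.N)
      ((c : ℂ) + κ i - κ j, ε, YH F.H F.N) := by
    refine ⟨hsol1, hYHj j, hbm _ hCm, ?_, ⟨(((C - κ j : ℝ) : ℝ) : ℂ), mem_ball_self one_pos, ?_⟩,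
      fun w _ => rfl⟩
    · rw [hcj] at hball1
      exact hball1
    · rw [hcj]
      exact mem_ball_self hε
  have e2 : Stp F.q F.B {w | m < w.re} ((c : ℂ) + κ i - κ j, ε, Y j)
      ((((C - κ j : ℝ) : ℝ) : ℂ), 1, fun w => YH F.H F.N w * t j) := by
    refine ⟨hS.2.1 j, SolOn.mul_const hsol1 (htu j), ?_, hbm _ hCm,
      ⟨(((C - κ j : ℝ) : ℝ) : ℂ), ?_, mem_ball_self one_pos⟩, fun w hw => ht j w hw.1⟩
    · rw [hcj] at hball1
      exact hball1
    · rw [hcj]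
      exact mem_ball_self hε
  exact (Relation.ReflTransGen.head e1 hmid).tail e2

/-- TU2 -/
theorem tu2 (hO : OdeStmt) (hU : UniStmt) (hB : BasStmt) (hP : PerStmt) : Tu2Stmt := by
  intro d _ _ F ι _ κ i g hg
  obtain ⟨t, ht, hti, -⟩ := key hO hU hB hP F κ i Set.univ isOpen_univ 0 (Set.subset_univ _) g hg
  exact ⟨t, ht, hti⟩

/-- TU3 -/
theorem tu3 (hO : OdeStmt) (hU : UniStmt) (hB : BasStmt) (hP : PerStmt) (hH : HplStmt) :
    Tu3Stmt := by
  intro d _ _ F hd ι _ κ i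
  obtain ⟨m1, ⟨g, hg, hgs⟩, hall⟩ := hH d F hd
  have hopen : IsOpen {w : ℂ | m1 < w.re} := isOpen_lt continuous_const Complex.continuous_re
  obtain ⟨t, ht, hti, hcomp⟩ := key hO hU hB hP F κ i {w | m1 < w.re} hopen m1 le_rfl g hg
  refine ⟨t, ht, by rw [hti]; exact hgs, fun i' hi' => hall _ (hcomp i' (m1 + 1) ?_)⟩
  intro w hw
  have hw' : m1 < w.re := hw
  have h1 : (w + ((κ i : ℂ) - κ i')).re = w.re + (κ i - κ i') := by simp
  have h2 : (κ i' : ℝ) + 1 ≤ κ i := by exact_mod_cast hi'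
  rw [h1]
  linarith

end Pool.Agent.MT100G.H90
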