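import Pool.Agent.MT100G.Stmts

/-! Local lemmas for TU2 and TU3: solutions on discs, branches of the logarithm. -/

set_option autoImplicit false

namespace Pool.Agent.MT100G.H90

open Matrix Pool.Agent.MT100 Metric

variable {d : Type} [Fintype d] [DecidableEq d]

/-- the coefficient matrix of the system in the variable `w` -/
noncomputable def cA (q : Polynomial ℤ) (B : Matrix d d (Polynomial ℤ)) (w : ℂ) : Matrix d d ℂ :=
  (-(w * zC q w⁻¹)⁻¹) • B.map (fun p => zC p w⁻¹)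

theorem cA_mul (q : Polynomial ℤ) (B : Matrix d d (Polynomial ℤ)) (w : ℂ) (Y : Matrix d d ℂ)
    (i j : d) : (cA q B w * Y) i j =
      -((w * zC q w⁻¹)⁻¹ * (B.map (fun p => zC p w⁻¹) * Y) i j) := by
  rw [cA, Matrix.smul_mul, Matrix.smul_apply, smul_eq_mul]
  ring

/-- a regular point -/
def Reg (q : Polynomial ℤ) (w : ℂ) : Prop := w ≠ 0 ∧ zC q w⁻¹ ≠ 0

theorem differentiable_zC (p : Polynomial ℤ) : Differentiable ℂ (zC p) := by
  unfold zC
  exact Polynomial.differentiable _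

theorem exists_sol (hO : OdeStmt) (q : Polynomial ℤ) (B : Matrix d d (Polynomial ℤ)) {c : ℂ}
    {ρ : ℝ} (hρ : 0 < ρ) (hreg : ∀ w ∈ ball c ρ, Reg q w) : ∃ Y, SolOn q B c ρ Y := by
  obtain ⟨Y, -, hY⟩ := hO d (cA q B) c ρ hρ (by
    intro i j w hw
    obtain ⟨h0, h1⟩ := hreg w hw
    have h2 : ∀ p : Polynomial ℤ, DifferentiableAt ℂ (fun w : ℂ => zC p w⁻¹) w := fun p =>
      DifferentiableAt.comp w (differentiable_zC p).differentiableAt (differentiableAt_inv h0)
    have h3 : (fun w => cA q B w i j) = fun w => (-(w * zC q w⁻¹)⁻¹) * zC (B i j) w⁻¹ := by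
      funext w
      rw [cA, Matrix.smul_apply, smul_eq_mul, Matrix.map_apply]
    rw [h3]
    apply DifferentiableAt.differentiableWithinAt
    exact (((differentiableAt_id.mul (h2 q)).inv (mul_ne_zero h0 h1)).neg).mul (h2 (B i j)))
  exact ⟨Y, hρ, hreg, fun w hw => (hY w hw).1, fun w hw i j => by
    rw [← cA_mul]
    exact (hY w hw).2 i j⟩

theorem SolOn.mono {q : Polynomial ℤ} {B : Matrix d d (Polynomial ℤ)} {c c' : ℂ} {ρ ρ' : ℝ}
    {Y : ℂ → Matrix d d ℂ} (h : SolOn q B c ρ Y) (hρ : 0 < ρ') (hs : ball c' ρ' ⊆ ball c ρ) :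
    SolOn q B c' ρ' Y :=
  ⟨hρ, fun w hw => h.reg w (hs hw), fun w hw => h.det w (hs hw), fun w hw => h.ode w (hs hw)⟩

theorem SolOn.mul_const {q : Polynomial ℤ} {B : Matrix d d (Polynomial ℤ)} {c : ℂ} {ρ : ℝ}
    {Y : ℂ → Matrix d d ℂ} (h : SolOn q B c ρ Y) {g : Matrix d d ℂ} (hg : IsUnit g.det) :
    SolOn q B c ρ (fun w => Y w * g) := by
  refine ⟨h.pos, h.reg, fun w hw => ?_, fun w hw i j => ?_⟩
  · rw [Matrix.det_mul]
    exact (h.det w hw).mul hg
  · have h1 : (fun x => (Y x * g) i j) = fun x => ∑ k, Y x i k * g k j := by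
      funext x
      rw [Matrix.mul_apply]
    have h2 : -((w * zC q w⁻¹)⁻¹ * (B.map (fun p => zC p w⁻¹) * (Y w * g)) i j) =
        ∑ k, (-((w * zC q w⁻¹)⁻¹ * (B.map (fun p => zC p w⁻¹) * Y w) i k)) * g k j := by
      rw [← Matrix.mul_assoc, Matrix.mul_apply, Finset.mul_sum, ← Finset.sum_neg_distrib]
      refine Finset.sum_congr rfl fun k _ => ?_
      ring
    rw [h1, h2]
    exact HasDerivAt.fun_sum fun k _ => (h.ode w hw i k).mul_const _

theorem SolOn.congr {q : Polynomial ℤ} {B : Matrix d d (Polynomial ℤ)} {c : ℂ} {ρ : ℝ}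
    {Y Y' : ℂ → Matrix d d ℂ} (h : SolOn q B c ρ Y) (he : ∀ w ∈ ball c ρ, Y' w = Y w) :
    SolOn q B c ρ Y' := by
  refine ⟨h.pos, h.reg, fun w hw => ?_, fun w hw i j => ?_⟩
  · rw [he w hw]
    exact h.det w hw
  · rw [he w hw]
    refine (h.ode w hw i j).congr_of_eventuallyEq ?_
    filter_upwards [isOpen_ball.mem_nhds hw] with x hx
    rw [he x hx]

/-- uniqueness on a common open convex subset -/
theorem uni_sol (hU : UniStmt) {q : Polynomial ℤ} {B : Matrix d d (Polynomial ℤ)} {c c' : ℂ}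
    {ρ ρ' : ℝ} {Y Y' : ℂ → Matrix d d ℂ} (h : SolOn q B c ρ Y) (h' : SolOn q B c' ρ' Y')
    (V : Set ℂ) (hV : IsOpen V) (hVc : Convex ℝ V) (hV1 : V ⊆ ball c ρ) (hV2 : V ⊆ ball c' ρ')
    (hne : V.Nonempty) : ∃ g : Matrix d d ℂ, IsUnit g.det ∧ ∀ w ∈ V, Y' w = Y w * g := by
  obtain ⟨g, hg⟩ := hU d (cA q B) V hV hVc Y Y'
    (fun w hw => ⟨h.det w (hV1 hw), fun i j => by
      rw [cA_mul]
      exact h.ode w (hV1 hw) i j⟩)
    (fun w hw i j => by
      rw [cA_mul]
      exact h'.ode w (hV2 hw) i j)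
  refine ⟨g, ?_, hg⟩
  obtain ⟨w, hw⟩ := hne
  have h1 := h'.det w (hV2 hw)
  rw [hg w hw, Matrix.det_mul] at h1
  exact (IsUnit.mul_iff.1 h1).2

/-- a solution on a disc continues to a second disc without singular points -/
theorem exists_match (hO : OdeStmt) (hU : UniStmt) {q : Polynomial ℤ}
    {B : Matrix d d (Polynomial ℤ)} {c c' : ℂ} {ρ ρ' : ℝ} {Y : ℂ → Matrix d d ℂ}
    (hY : SolOn q B c ρ Y) (hρ' : 0 < ρ') (hreg : ∀ w ∈ ball c' ρ', Reg q w)
    (hne : (ball c ρ ∩ ball c' ρ').Nonempty) :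
    ∃ Y' : ℂ → Matrix d d ℂ, SolOn q B c' ρ' Y' ∧ ∀ w ∈ ball c ρ ∩ ball c' ρ', Y w = Y' w := by
  obtain ⟨Y₀, hY₀⟩ := exists_sol hO q B hρ' hreg
  obtain ⟨g, hg, h⟩ := uni_sol hU hY₀ hY (ball c ρ ∩ ball c' ρ')
    (isOpen_ball.inter isOpen_ball) ((convex_ball c ρ).inter (convex_ball c' ρ'))
    Set.inter_subset_right Set.inter_subset_left hne
  exact ⟨fun w => Y₀ w * g, SolOn.mul_const hY₀ hg, h⟩

/-! ### The logarithm -/

theorem exists_log {c : ℂ} {ρ : ℝ} (hρ : 0 < ρ) (h0 : ∀ w ∈ ball c ρ, w ≠ 0) :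
    ∃ L : ℂ → ℂ, DifferentiableOn ℂ L (ball c ρ) ∧ ∀ w ∈ ball c ρ, Complex.exp (L w) = w := by
  have hc : c ≠ 0 := h0 c (mem_ball_self hρ)
  have hcρ : ρ ≤ ‖c‖ := by
    by_contra h
    push Not at h
    exact h0 0 (by rw [mem_ball, dist_eq_norm, zero_sub, norm_neg]; exact h) rfl
  have hs : ∀ w ∈ ball c ρ, w / c ∈ Complex.slitPlane := by
    intro w hw
    have h1 : ‖(w - c) / c‖ < 1 := by
      rw [norm_div, div_lt_one (norm_pos_iff.2 hc)]
      rw [mem_ball, dist_eq_norm] at hw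
      exact lt_of_lt_of_le hw hcρ
    have h2 := Complex.mem_slitPlane_of_norm_lt_one h1
    have h3 : 1 + (w - c) / c = w / c := by
      field_simp
      ring
    rwa [h3] at h2
  refine ⟨fun w => Complex.log c + Complex.log (w / c), ?_, ?_⟩
  · intro w hw
    apply DifferentiableAt.differentiableWithinAt
    exact (differentiableAt_const _).add
      (DifferentiableAt.clog (differentiableAt_id.div_const c) (hs w hw))
  · intro w hw
    show Complex.exp (Complex.log c + Complex.log (w / c)) = w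
    rw [Complex.exp_add, Complex.exp_log hc, Complex.exp_log (div_ne_zero (h0 w hw) hc)]
    field_simp

theorem log_diff {V : Set ℂ} (hV : IsOpen V) (hVc : IsPreconnected V) (hne : V.Nonempty)
    {L L' : ℂ → ℂ} (hL : DifferentiableOn ℂ L V) (hL' : DifferentiableOn ℂ L' V)
    (he : ∀ w ∈ V, Complex.exp (L w) = w) (he' : ∀ w ∈ V, Complex.exp (L' w) = w) :
    ∃ m : ℤ, ∀ w ∈ V, L w = L' w + 2 * Real.pi * Complex.I * m := by
  have hder : ∀ {M : ℂ → ℂ}, DifferentiableOn ℂ M V → (∀ w ∈ V, Complex.exp (M w) = w) →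
      ∀ w ∈ V, HasDerivAt M w⁻¹ w := by
    intro M hM heM w hw
    have h1 := (hM.differentiableAt (hV.mem_nhds hw)).hasDerivAt
    have h2 := h1.cexp
    have h3 : HasDerivAt (fun x : ℂ => Complex.exp (M x)) 1 w := by
      refine (hasDerivAt_id w).congr_of_eventuallyEq ?_
      filter_upwards [hV.mem_nhds hw] with x hx
      rw [heM x hx]
      rfl
    have h4 := h2.unique h3
    rw [heM w hw] at h4
    have h5 : deriv M w = w⁻¹ := by
      exact eq_inv_of_mul_eq_one_right h4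
    rw [← h5]
    exact h1
  obtain ⟨w₀, hw₀⟩ := hne
  have hconst : ∀ w ∈ V, L w - L' w = L w₀ - L' w₀ := by
    intro w hw
    apply hV.is_const_of_deriv_eq_zero hVc (f := fun w => L w - L' w) (hL.sub hL') ?_ hw hw₀
    intro x hx
    have h1 := (hder hL he x hx).sub (hder hL' he' x hx)
    rw [sub_self] at h1
    exact h1.deriv
  obtain ⟨m, hm⟩ := Complex.exp_eq_exp_iff_exists_int.1 ((he w₀ hw₀).trans (he' w₀ hw₀).symm)
  refine ⟨m, fun w hw => ?_⟩
  have h1 := hconst w hw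
  linear_combination h1 + hm

end Pool.Agent.MT100G.H90
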